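import Mathlib
import Pool.Agent.Helper71.TreeDefs

/-!
Closed manifolds glued along trees: the two kinds of roots.
-/

set_option autoImplicit false

namespace Pool.Agent.Helper25.TR

open Pool.Agent.Helper71.Rot (Letter)
open Pool.Agent.Helper71.Tree

/-- The displacement condition for words whose monodromy is killed (`t = 1`): all letters have
integral bounds, the composition of the lower maps moves no point down, and the composition of
the upper maps moves every point up, by less than `4`. -/
def Closing (L : List Letter) : Prop :=
  (∀ ℓ ∈ L, ∃ k h : ℤ, ℓ.lo = some k ∧ ℓ.hi = some h ∧ k ≤ h) ∧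
  ∀ x : ℝ, x ≤ L.foldl (fun y ℓ => ℓ.low y) x ∧ x < L.foldl (fun y ℓ => ℓ.upp y) x ∧
    L.foldl (fun y ℓ => ℓ.upp y) x < x + 4

/-- `Root S`: the elements of the set `S` satisfy the relations of the fundamental group of a
closed manifold glued along a tree from pieces. -/
inductive Root {G : Type*} [Group G] : Set G → Prop
  /-- A piece with filled inner boundary tori, the outer boundary torus of which is filled along
  a curve with nonnegative coefficients. -/
  | outer (p q : G) (S : Set G) (h : Glued .piece p q S) (P Q : ℕ) (hPQ : 0 < P + Q)
      (hrel : p ^ P * q ^ Q = 1) : Root S
  /-- The piece of a word satisfying the condition `Closing`, the outer boundary torus of which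
  is filled along `t`.  The slopes of solid tori in the curves must be different from the lower
  bound if this is different from the upper bound. -/
  | closed (L : List Letter) (hL : Closing L) (w : Word G L) (ht : w.t = 1)
      (S : Fin L.length → Set G)
      (h : ∀ i, Glued (.fill ((L.get i).lo != (L.get i).hi) (L.get i).lo (L.get i).hi)
        (w.m i) (w.curve i) (S i)) :
      Root (w.elts ∪ ⋃ i, S i)

end Pool.Agent.Helper25.TR
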