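import Mathlib
import Pool.Agent.Helper25.TR.Defs
import Pool.Agent.Helper71.RotBraid

/-!
Closed manifolds glued along trees: the fundamental group is not left-orderable.
-/

set_option autoImplicit false

namespace Pool.Agent.Helper25.TR

open Pool.Agent.Helper31.OrderAct
open Pool.Agent.Helper71.Rot
open Pool.Agent.Helper71.Tree

section

variable {Ω : Type*} [CompleteLinearOrder Ω] {G : Type*} [Group G]

/-- The integral data of a letter. -/
def dat (ℓ : Letter) : Bool × ℤ × ℤ := (ℓ.second, ℓ.lo.getD 0, ℓ.hi.getD 0)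

lemma dat_eq {ℓ : Letter} {k h : ℤ} (h1 : ℓ.lo = some k) (h2 : ℓ.hi = some h) :
    dat ℓ = (ℓ.second, k, h) := by
  simp [dat, h1, h2]

lemma lt3_dat {ℓ : Letter} {k h : ℤ} (h1 : ℓ.lo = some k) (h2 : ℓ.hi = some h) :
    lt3 (dat ℓ) = ℓ := by
  rw [dat_eq h1 h2]
  cases ℓ
  simp only at h1 h2
  subst h1 h2
  rfl

/-- A closed word fixes every point. -/
theorem closed_fix {L : List Letter} (hL : Closing L) (w : Word G L) (ht : w.t = 1)
    (ρ : G →* (Ω ≃o Ω)) (S : Fin L.length → Set (Ω ≃o Ω))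
    (h : ∀ i, FillSpec ((L.get i).lo != (L.get i).hi) (L.get i).lo (L.get i).hi
      (ρ (w.m i)) (ρ (w.curve i)) (S i)) (s : Ω) :
    ρ (w.a 0) s = s ∧ ρ (w.b 0) s = s := by
  obtain ⟨hint, hdisp⟩ := hL
  set W : ℕ → Bool × ℤ × ℤ := fun i => dat (seq L i) with hW
  have hlw : ∀ k, k ≤ L.length → ∀ x, LW W k x = lw (seq L) k x ∧ HW W k x = hw (seq L) k x := by
    intro k hk x
    induction k with
    | zero => exact ⟨rfl, rfl⟩
    | succ k ih =>
      obtain ⟨i1, i2⟩ := ih (by omega)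
      have hk' : k < L.length := by omega
      obtain ⟨k0, h0, e1, e2, _⟩ := hint (L.get ⟨k, hk'⟩) (List.get_mem _ _)
      have e3 : lt3 (W k) = seq L k := by
        rw [hW]
        dsimp only
        rw [seq_get L hk']
        exact lt3_dat e1 e2
      rw [LW_succ, HW_succ, i1, i2, e3]
      exact ⟨rfl, rfl⟩
  have hd : ∀ x : ℝ, x ≤ LW W L.length x ∧ x < HW W L.length x ∧ HW W L.length x < x + 4 := by
    intro x
    obtain ⟨h1, h2⟩ := hlw L.length le_rfl x
    have h3 := lw_take L L.length le_rfl x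
    have h4 := hw_take L L.length le_rfl x
    rw [List.take_length] at h3 h4
    rw [h1, h2, h3, h4]
    exact hdisp x
  let A : ℕ → G := fun i => w.a ⟨min i L.length, by omega⟩
  let B : ℕ → G := fun i => w.b ⟨min i L.length, by omega⟩
  let M : ℕ → G := fun i => if hi : i < L.length then w.m ⟨i, hi⟩ else 1
  have hcast : ∀ i (hi : i < L.length),
      (⟨min i L.length, by omega⟩ : Fin (L.length + 1)) = (⟨i, hi⟩ : Fin L.length).castSucc := by
    intro i hi
    apply Fin.ext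
    simp only [Fin.val_castSucc]
    omega
  have hsucc : ∀ i (hi : i < L.length),
      (⟨min (i + 1) L.length, by omega⟩ : Fin (L.length + 1)) =
        (⟨i, hi⟩ : Fin L.length).succ := by
    intro i hi
    apply Fin.ext
    simp only [Fin.val_succ]
    omega
  have hlast : (⟨min L.length L.length, by omega⟩ : Fin (L.length + 1)) =
      Fin.last L.length := by
    apply Fin.ext
    simp
  have hzero : (⟨min 0 L.length, by omega⟩ : Fin (L.length + 1)) = 0 := by
    apply Fin.ext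
    simp
  have hA0 : ∀ i (hi : i < L.length), A i = w.a (⟨i, hi⟩ : Fin L.length).castSucc ∧
      A (i + 1) = w.a (⟨i, hi⟩ : Fin L.length).succ ∧
      B i = w.b (⟨i, hi⟩ : Fin L.length).castSucc ∧
      B (i + 1) = w.b (⟨i, hi⟩ : Fin L.length).succ ∧ M i = w.m ⟨i, hi⟩ := by
    intro i hi
    refine ⟨?_, ?_, ?_, ?_, ?_⟩
    · change w.a ⟨min i L.length, _⟩ = _
      rw [hcast i hi]
    · change w.a ⟨min (i + 1) L.length, _⟩ = _
      rw [hsucc i hi]
    · change w.b ⟨min i L.length, _⟩ = _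
      rw [hcast i hi]
    · change w.b ⟨min (i + 1) L.length, _⟩ = _
      rw [hsucc i hi]
    · change (if hi : i < L.length then w.m ⟨i, hi⟩ else 1) = _
      rw [dif_pos hi]
  have hsb : ∀ i (hi : i < L.length), (W i).2.1 ≤ (W i).2.2 ∧ (W i).1 = (L.get ⟨i, hi⟩).second ∧
      SB (W i).2.1 (W i).2.2 (ρ (w.m ⟨i, hi⟩)) (ρ (w.curve ⟨i, hi⟩)) := by
    intro i hi
    obtain ⟨k0, h0, e1, e2, e3⟩ := hint (L.get ⟨i, hi⟩) (List.get_mem _ _)
    have e4 : W i = ((L.get ⟨i, hi⟩).second, k0, h0) := by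
      rw [hW]
      dsimp only
      rw [seq_get L hi]
      exact dat_eq e1 e2
    rw [e4]
    refine ⟨e3, rfl, ?_⟩
    have hf := h ⟨i, hi⟩
    rw [e1, e2] at hf
    have hc : ρ (w.m ⟨i, hi⟩) * ρ (w.curve ⟨i, hi⟩) = ρ (w.curve ⟨i, hi⟩) * ρ (w.m ⟨i, hi⟩) := by
      rw [← map_mul, m_comm, map_mul]
    refine ⟨hf.bd hc, fun hne s hs => hf.str hc ?_ k0 rfl s hs⟩
    simpa using hne
  have hfix : ρ (A 0) s = s ∧ ρ (B 0) s = s := by
    refine word_fix (n := L.length) (W := W) (a := fun i => ρ (A i)) (b := fun i => ρ (B i))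
      (m := fun i => ρ (M i)) ?_ ?_ ?_ ?_ ?_ hd s
    · intro i hi
      exact (hsb i hi).1
    · intro i hi hs
      obtain ⟨a1, a2, b1, b2, m1⟩ := hA0 i hi
      obtain ⟨_, g2, g3⟩ := hsb i hi
      rw [hs] at g2
      obtain ⟨p1, p2, p3⟩ := w.passA ⟨i, hi⟩ g2.symm
      have hcv : w.curve ⟨i, hi⟩ = w.a (⟨i, hi⟩ : Fin L.length).castSucc := by
        unfold Word.curve
        rw [← g2]
        rfl
      rw [hcv] at g3
      rw [a1, a2, b1, b2, m1]
      exact ⟨by rw [p1], by rw [p2, map_mul], g3⟩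
    · intro i hi hs
      obtain ⟨a1, a2, b1, b2, m1⟩ := hA0 i hi
      obtain ⟨_, g2, g3⟩ := hsb i hi
      rw [hs] at g2
      obtain ⟨p1, p2, p3⟩ := w.passB ⟨i, hi⟩ g2.symm
      have hcv : w.curve ⟨i, hi⟩ = w.b (⟨i, hi⟩ : Fin L.length).castSucc := by
        unfold Word.curve
        rw [← g2]
        rfl
      rw [hcv] at g3
      rw [a1, a2, b1, b2, m1]
      exact ⟨by rw [p1], by rw [p2, map_mul, map_inv], g3⟩
    · change ρ (w.a ⟨min L.length L.length, _⟩) = ρ (w.a ⟨min 0 L.length, _⟩)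
      have hc := w.closeA
      rw [ht, one_mul, mul_one] at hc
      rw [hlast, hzero, hc]
    · change ρ (w.b ⟨min L.length L.length, _⟩) = ρ (w.b ⟨min 0 L.length, _⟩)
      have hc := w.closeB
      rw [ht, one_mul, mul_one] at hc
      rw [hlast, hzero, hc]
  have h1 := hfix
  change ρ (w.a ⟨min 0 L.length, _⟩) s = s ∧ ρ (w.b ⟨min 0 L.length, _⟩) s = s at h1
  rw [hzero] at h1
  exact h1

/-- Different strictness flags: the elements of a closed word fix all points. -/
theorem closed_all {L : List Letter} (hL : Closing L) (w : Word G L) (ht : w.t = 1)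
    (ρ : G →* (Ω ≃o Ω)) (S : Fin L.length → Set G)
    (h : ∀ i, FillSpec ((L.get i).lo != (L.get i).hi) (L.get i).lo (L.get i).hi
      (ρ (w.m i)) (ρ (w.curve i)) (ρ '' (S i))) (s : Ω) :
    ∀ g ∈ w.elts ∪ ⋃ i, S i, ρ g s = s := by
  obtain ⟨h1, h2⟩ := closed_fix hL w ht ρ _ h s
  have h3 : ∀ i, FillSpec false (L.get i).lo (L.get i).hi
      (ρ (w.m i)) (ρ (w.curve i)) (ρ '' (S i)) := fun i =>
    ⟨(h i).bd, (h i).fix, fun _ hf => by simp at hf⟩
  obtain ⟨h4, h5⟩ := all_fix w ρ _ h3 h1 h2 (by rw [ht, map_one]; rfl)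
  rintro g (hg | hg)
  · exact h4 g hg
  · obtain ⟨i, hi⟩ := Set.mem_iUnion.mp hg
    exact h5 i _ ⟨g, hi, rfl⟩

end

theorem root_fix {Ω : Type*} [CompleteLinearOrder Ω] {G : Type*} [Group G]
    (ρ : G →* (Ω ≃o Ω)) {S : Set G} (h : Root S) (s : Ω) : ∀ g ∈ S, ρ g s = s := by
  cases h with
  | outer p q S h P Q hPQ hrel =>
    have spec : PieceSpec (ρ p) (ρ q) (ρ '' S) := spec_of_glued ρ h
    have hrel' : ρ p ^ P * ρ q ^ Q = 1 := by
      rw [← map_pow, ← map_pow, ← map_mul, hrel, map_one]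
    obtain ⟨h1, h2⟩ := spec.root P Q hPQ hrel' s
    intro g hg
    exact spec.fix s h1 h2 _ ⟨g, hg, rfl⟩
  | closed L hL w ht S h =>
    exact closed_all hL w ht ρ S (fun i => spec_of_glued ρ (h i)) s

theorem not_leftOrderable {G : Type*} [Group G] {S : Set G} (h : Root S)
    (hS : Subgroup.closure S = ⊤) : ¬ Pool.Agent.Helper71.Tree.LeftOrderable G := by
  rintro ⟨hnt, ⟨ho, hmul⟩⟩
  have hall : ∀ L : LowerSet G, ∀ g : G, cutHom hmul g L = L := by
    intro L g
    have hg : g ∈ Subgroup.closure S := by rw [hS]; trivial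
    induction hg using Subgroup.closure_induction with
    | mem y hy => exact root_fix _ h L y hy
    | one => simp
    | mul a b _ _ ha hb => rw [map_mul, RelIso.mul_apply, hb, ha]
    | inv a _ ha => rw [map_inv]; exact inv_fix ha
  obtain ⟨x, y, hxy⟩ := exists_pair_ne G
  have key : ∀ x y : G, y ≤ x := by
    intro x y
    have h1 := hall (LowerSet.Iic x) (y * x⁻¹)
    have h2 : y ∈ LowerSet.Iic x := by
      rw [← h1, mem_cutHom]
      simp
    exact h2
  exact hxy (le_antisymm (key y x) (key x y))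

end Pool.Agent.Helper25.TR
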